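import Pool.Agent.Helper78.DT.Goals

/-!
# DT, packet LAG: values of random polynomials
-/

set_option autoImplicit false

namespace Pool.Agent.Helper35.DT

open Pool.Agent.Helper78.DT

theorem fiber_card {F M N : Type} [Field F] [Fintype F] [AddCommGroup M] [Module F M]
    [AddCommGroup N] [Module F N] [Module.Finite F M] [Module.Finite F N] (L : M →ₗ[F] N)
    (hL : Function.Surjective L) (v : N) :
    Nat.card {x : M // L x = v} = Fintype.card F ^ (Module.finrank F M - Module.finrank F N) := by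
  obtain ⟨x0, hx0⟩ := hL v
  have e : {x : M // L x = v} ≃ LinearMap.ker L :=
    { toFun := fun x => ⟨x.1 - x0, by rw [LinearMap.mem_ker, map_sub, x.2, hx0, sub_self]⟩
      invFun := fun y => ⟨y.1 + x0, by rw [map_add, LinearMap.mem_ker.mp y.2, zero_add, hx0]⟩
      left_inv := fun x => by ext; simp
      right_inv := fun y => by ext; simp }
  rw [Nat.card_congr e]
  have h1 := LinearMap.finrank_range_add_finrank_ker L
  have h2 : Module.finrank F (LinearMap.range L) = Module.finrank F N := by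
    rw [LinearMap.range_eq_top.mpr hL, finrank_top]
  have h3 : Module.finrank F M - Module.finrank F N = Module.finrank F (LinearMap.ker L) := by omega
  rw [h3, Module.natCard_eq_pow_finrank (K := F), Nat.card_eq_fintype_card]

/-- evaluation at the points of `W` -/
noncomputable def evL (F : Type) [Field F] (d : ℕ) (W : Finset ℕ) : (Fin d → F) →ₗ[F] (W → F) where
  toFun θ := fun w => ∑ i : Fin d, θ i * ((w : ℕ) : F) ^ (i : ℕ)
  map_add' θ θ' := by
    funext w
    simp only [Pi.add_apply, add_mul, Finset.sum_add_distrib]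
  map_smul' c θ := by
    funext w
    simp only [Pi.smul_apply, smul_eq_mul, RingHom.id_apply, Finset.mul_sum, mul_assoc]

theorem evL_surj (R d : ℕ) [Fact R.Prime] (W : Finset ℕ) (hW : ∀ w ∈ W, w < R) (hd : W.card ≤ d) :
    Function.Surjective (evL (ZMod R) d W) := by
  intro v
  rcases Nat.eq_zero_or_pos d with h0 | h0
  · subst h0
    have hWe : W = ∅ := Finset.card_eq_zero.mp (Nat.le_zero.mp hd)
    subst hWe
    exact ⟨0, funext fun w => absurd w.2 (Finset.notMem_empty _)⟩
  · classical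
    let u : ℕ → ZMod R := fun w => if h : w ∈ W then v ⟨w, h⟩ else 0
    let p := Lagrange.interpolate W (fun w : ℕ => (w : ZMod R)) u
    have hinj : Set.InjOn (fun w : ℕ => (w : ZMod R)) W := by
      intro a ha b hb hab
      have h1 : ((a : ℕ) : ZMod R).val = ((b : ℕ) : ZMod R).val := congrArg ZMod.val hab
      rwa [ZMod.val_natCast_of_lt (hW a ha), ZMod.val_natCast_of_lt (hW b hb)] at h1
    have hdeg : p.degree < W.card := Lagrange.degree_interpolate_lt u hinj
    have hnat : p.natDegree < d := by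
      by_cases hp : p = 0
      · rw [hp, Polynomial.natDegree_zero]
        exact h0
      · rw [Polynomial.natDegree_lt_iff_degree_lt hp]
        exact hdeg.trans_le (by exact_mod_cast hd)
    refine ⟨fun i => p.coeff i, funext fun w => ?_⟩
    show (∑ i : Fin d, p.coeff i * ((w : ℕ) : ZMod R) ^ (i : ℕ)) = v w
    rw [Fin.sum_univ_eq_sum_range (fun i => p.coeff i * ((w : ℕ) : ZMod R) ^ i) d,
      ← Polynomial.eval_eq_sum_range' hnat]
    have h1 : p.eval ((w : ℕ) : ZMod R) = u w := Lagrange.eval_interpolate_at_node u hinj w.2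
    rw [h1]
    simp only [u, dif_pos w.2]

/-- elements of `Fin R` as residues -/
noncomputable def toZ (R : ℕ) [Fact R.Prime] : Fin R ≃ ZMod R :=
  Equiv.ofBijective (fun a => ((a : ℕ) : ZMod R)) (by
    have : NeZero R := ⟨(Fact.out : R.Prime).ne_zero⟩
    rw [Fintype.bijective_iff_injective_and_card]
    refine ⟨fun a b hab => ?_, by rw [ZMod.card, Fintype.card_fin]⟩
    have h1 : (((a : ℕ) : ZMod R)).val = (((b : ℕ) : ZMod R)).val := congrArg ZMod.val hab
    rw [ZMod.val_natCast_of_lt a.2, ZMod.val_natCast_of_lt b.2] at h1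
    exact Fin.ext h1)

theorem pv_iff (R d : ℕ) [Fact R.Prime] (θ : Fin d → Fin R) (w y : ℕ) (hy : y < R) :
    pv R d (ext θ) w = y ↔
      (∑ i : Fin d, (toZ R (θ i)) * ((w : ℕ) : ZMod R) ^ (i : ℕ)) = (y : ZMod R) := by
  have h1 : (∑ i ∈ Finset.range d, ext θ i * w ^ i) = ∑ i : Fin d, (θ i : ℕ) * w ^ (i : ℕ) := by
    rw [← Fin.sum_univ_eq_sum_range (fun i => ext θ i * w ^ i) d]
    refine Finset.sum_congr rfl fun i _ => ?_
    unfold ext
    rw [dif_pos i.2]
  unfold pv
  rw [h1]
  have h2 : (∑ i : Fin d, (θ i : ℕ) * w ^ (i : ℕ)) % R = y ↔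
      (∑ i : Fin d, (θ i : ℕ) * w ^ (i : ℕ)) % R = y % R := by rw [Nat.mod_eq_of_lt hy]
  rw [h2, ← ZMod.natCast_eq_natCast_iff']
  have h3 : (((∑ i : Fin d, (θ i : ℕ) * w ^ (i : ℕ) : ℕ)) : ZMod R) =
      ∑ i : Fin d, (toZ R (θ i)) * ((w : ℕ) : ZMod R) ^ (i : ℕ) := by
    push_cast
    rfl
  rw [h3]

/-- **LAG.** -/
theorem lag : LagStmt := by
  intro R d hR W hW hd y hy
  have : Fact R.Prime := ⟨hR⟩
  have h1 := fiber_card (evL (ZMod R) d W) (evL_surj R d W hW hd) (fun w : W => ((y w : ℕ) : ZMod R))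
  have e : {θ : Fin d → Fin R // ∀ w ∈ W, pv R d (ext θ) w = y w} ≃
      {θ : Fin d → ZMod R // evL (ZMod R) d W θ = fun w : W => ((y w : ℕ) : ZMod R)} := by
    refine Equiv.subtypeEquiv (Equiv.piCongrRight fun _ => toZ R) fun θ => ?_
    constructor
    · intro h
      funext w
      exact (pv_iff R d θ w (y w) (hy w w.2)).mp (h w w.2)
    · intro h w hw
      exact (pv_iff R d θ w (y w) (hy w hw)).mpr (congrFun h ⟨w, hw⟩)
  rw [Nat.card_congr e, h1, ZMod.card, Module.finrank_fintype_fun_eq_card,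
    Module.finrank_fintype_fun_eq_card, Fintype.card_fin, Fintype.card_coe]

end Pool.Agent.Helper35.DT
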