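import Pool.Agent.Helper78.DT.Goals

/-!
# DT, packet GTH: most coefficients are good for all tests of a finite family
-/

set_option autoImplicit false

namespace Pool.Agent.Helper35.DT

open Pool.Agent.Helper78.DT
open scoped Classical

theorem gth_one (hMom : MomStmt) (hInd : IndStmt) (hBia : BiaStmt) (R P d q k σ : ℕ) (δ : ℝ)
    (hR : R.Prime) (hq : 0 < q) (hqP : q * P ≤ R) (hd : 2 * k * σ ≤ d) (hδ : 0 < δ)
    (h1 : 16 * (k : ℝ) ^ 2 ≤ q * δ ^ 2) (h2 : 2 * (σ : ℝ) ≤ δ * R)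
    (φ : (Fin P → Bool) → Prop) (S : Set (Fin P)) (hS : Dep S φ) (hσ : S.ncard ≤ σ) :
    pr (fun θ : Fin d → Fin R =>
      δ < |pr (fun a : Fin q => φ (st R P d (ext θ) a)) - pr φ|) ≤ (1 / 4) ^ k := by
  have hRp : (0 : ℝ) < R := by exact_mod_cast hR.pos
  have hqp : (0 : ℝ) < q := by exact_mod_cast hq
  have hb0 : 0 ≤ bp R P φ := pr_nonneg _
  have hb1 : bp R P φ ≤ 1 := pr_le_one _
  have hbia : |bp R P φ - pr φ| ≤ δ / 2 := by
    refine (hBia R P σ hR.pos φ S hS hσ).trans ?_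
    rw [div_le_div_iff₀ hRp two_pos]
    linarith
  let Z : Fin q → (Fin d → Fin R) → ℝ := fun a θ =>
    (if φ (st R P d (ext θ) a) then (1 : ℝ) else 0) - bp R P φ
  have hZ : ∀ a θ, |Z a θ| ≤ 1 := by
    intro a θ
    simp only [Z]
    split_ifs
    · rw [abs_le]
      constructor <;> linarith
    · rw [abs_le]
      constructor <;> linarith
  have hmom : av (fun θ => (∑ a, Z a θ) ^ (2 * k)) ≤ (k : ℝ) ^ (2 * k) * (q : ℝ) ^ k :=
    hMom _ q k Z hZ fun τ hτ => hInd R P d q (2 * k) σ hR hqP hd φ S hS hσ τ hτ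
  have hsum : ∀ θ : Fin d → Fin R, ∑ a, Z a θ =
      q * (pr (fun a : Fin q => φ (st R P d (ext θ) a)) - bp R P φ) := by
    intro θ
    simp only [Z]
    rw [Finset.sum_sub_distrib, Finset.sum_const, Finset.card_univ, Fintype.card_fin, nsmul_eq_mul,
      mul_sub]
    congr 1
    unfold pr av
    rw [Fintype.card_fin]
    field_simp
  have hc : 0 < (q * δ / 2) ^ (2 * k) := by positivity
  have hev : pr (fun θ : Fin d → Fin R =>
      δ < |pr (fun a : Fin q => φ (st R P d (ext θ) a)) - pr φ|) ≤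
      pr (fun θ : Fin d → Fin R => (q * δ / 2) ^ (2 * k) ≤ (∑ a, Z a θ) ^ (2 * k)) := by
    refine pr_mono fun θ hθ => ?_
    have e1 : δ / 2 ≤ |pr (fun a : Fin q => φ (st R P d (ext θ) a)) - bp R P φ| := by
      have e2 := abs_sub_le (pr (fun a : Fin q => φ (st R P d (ext θ) a))) (bp R P φ) (pr φ)
      linarith
    have e3 : q * δ / 2 ≤ |∑ a, Z a θ| := by
      rw [hsum, abs_mul, abs_of_pos hqp]
      have e4 := mul_le_mul_of_nonneg_left e1 hqp.le
      linarith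
    calc (q * δ / 2) ^ (2 * k) ≤ |∑ a, Z a θ| ^ (2 * k) := pow_le_pow_left₀ (by positivity) e3 _
      _ = (∑ a, Z a θ) ^ (2 * k) := by
        rw [pow_mul, pow_mul, sq_abs]
  have hnn : ∀ θ : Fin d → Fin R, 0 ≤ (∑ a, Z a θ) ^ (2 * k) := fun θ => by
    rw [pow_mul]
    positivity
  refine (hev.trans (pr_ge_le hnn hc)).trans ?_
  rw [div_le_iff₀ hc]
  refine hmom.trans ?_
  have e5 : (k : ℝ) ^ (2 * k) * (q : ℝ) ^ k = ((k : ℝ) ^ 2 * q) ^ k := by
    rw [mul_pow, ← pow_mul]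
  have e6 : (1 / 4 : ℝ) ^ k * (q * δ / 2) ^ (2 * k) = ((q : ℝ) ^ 2 * δ ^ 2 / 16) ^ k := by
    rw [pow_mul, ← mul_pow]
    congr 1
    ring
  rw [e5, e6]
  refine pow_le_pow_left₀ (by positivity) ?_ k
  have e7 := mul_le_mul_of_nonneg_left h1 hqp.le
  nlinarith

/-- **GTH.** -/
theorem gth (hMom : MomStmt) (hInd : IndStmt) (hBia : BiaStmt) : GthStmt := by
  intro R P d q k σ δ hR hq hqP hd hδ h1 h2 ι I φ S hS
  refine (pr_exists_le I (fun i => fun θ : Fin d → Fin R =>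
    δ < |pr (fun a : Fin q => φ i (st R P d (ext θ) a)) - pr (φ i)|)).trans ?_
  refine (Finset.sum_le_sum fun i hi => gth_one hMom hInd hBia R P d q k σ δ hR hq hqP hd hδ h1 h2
    (φ i) (S i) (hS i hi).1 (hS i hi).2).trans ?_
  rw [Finset.sum_const, nsmul_eq_mul]

end Pool.Agent.Helper35.DT
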